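import Pool.Agent.W544.PG.Defs2

/-!
# Project PG (helper544), parts HK and LIE
-/

open Matrix Finset Module

namespace Pool.Agent.W101.PG

open Pool.Agent.W544.PG

section
variable {n k : ℕ}

/-- the form `ev t` as a multilinear map -/
noncomputable def EE (t : (Fin k → Fin n) → ℚ) :
    MultilinearMap ℂ (fun _ : Fin k => Fin n → ℂ) ℂ :=
  ∑ I : Fin k → Fin n, (t I : ℂ) • (MultilinearMap.mkPiAlgebra ℂ (Fin k) ℂ).compLinearMap
    (fun j => LinearMap.proj (I j))

lemma EE_apply (t : (Fin k → Fin n) → ℚ) (v : Fin k → Fin n → ℂ) : EE t v = ev t v := by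
  simp [EE, ev]

/-- the derivation given by `y` -/
noncomputable def Dr (y : Matrix (Fin n) (Fin n) ℂ)
    (f : MultilinearMap ℂ (fun _ : Fin k => Fin n → ℂ) ℂ) :
    MultilinearMap ℂ (fun _ : Fin k => Fin n → ℂ) ℂ :=
  ∑ j, f.compLinearMap (fun i => if i = j then y.mulVecLin else LinearMap.id)

lemma Dr_apply (y : Matrix (Fin n) (Fin n) ℂ)
    (f : MultilinearMap ℂ (fun _ : Fin k => Fin n → ℂ) ℂ) (v : Fin k → Fin n → ℂ) :
    Dr y f v = ∑ j, f (Function.update v j (y *ᵥ v j)) := by
  unfold Dr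
  rw [_root_.sum_apply]
  refine sum_congr rfl fun j _ => ?_
  rw [MultilinearMap.compLinearMap_apply]
  congr 1
  funext i
  by_cases h : i = j
  · subst h
    simp
  · simp [h]

lemma EE_single (t : (Fin k → Fin n) → ℚ) (J : Fin k → Fin n) :
    EE t (fun i => Pi.single (J i) 1) = t J := by
  rw [EE_apply, ev, sum_eq_single J]
  · simp
  · intro I _ hI
    obtain ⟨j, hj⟩ := Function.ne_iff.1 hI
    rw [prod_eq_zero (mem_univ j), mul_zero]
    rw [Pi.single_eq_of_ne hj]
  · intro h
    exact absurd (mem_univ J) h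

lemma Dr_single (y : Matrix (Fin n) (Fin n) ℂ) (t : (Fin k → Fin n) → ℚ) (J : Fin k → Fin n) :
    Dr y (EE t) (fun i => Pi.single (J i) 1) =
      ∑ j, ∑ l, y l (J j) * (t (Function.update J j l) : ℂ) := by
  rw [Dr_apply]
  refine sum_congr rfl fun j _ => ?_
  have h1 : y *ᵥ (Pi.single (J j) 1 : Fin n → ℂ) =
      ∑ l, y l (J j) • (Pi.single l 1 : Fin n → ℂ) := by
    funext m
    rw [Matrix.mulVec_single_one, Finset.sum_apply]
    simp [Pi.single_apply, Matrix.col]
  rw [h1, MultilinearMap.map_update_sum]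
  refine sum_congr rfl fun l _ => ?_
  rw [MultilinearMap.map_update_smul, smul_eq_mul, ← EE_single]
  congr 2
  funext i
  by_cases h : i = j
  · subst h
    simp
  · simp [h]

lemma kil_iff (y : Matrix (Fin n) (Fin n) ℂ) (t : (Fin k → Fin n) → ℚ) :
    Kil y t ↔ Dr y (EE t) = 0 := by
  constructor
  · intro h
    refine Module.Basis.ext_multilinear (fun _ => Pi.basisFun ℂ (Fin n)) fun J => ?_
    simp only [Pi.basisFun_apply]
    rw [Dr_single, h J]
    rfl
  · intro h J
    rw [← Dr_single, h]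
    rfl

lemma Dr_eigen (x : Matrix (Fin n) (Fin n) ℂ)
    (f : MultilinearMap ℂ (fun _ : Fin k => Fin n → ℂ) ℂ) (v : Fin k → Fin n → ℂ)
    (a : Fin k → ℤ) (h : ∀ j, x *ᵥ v j = (a j : ℂ) • v j) :
    Dr x f v = ((∑ j, a j : ℤ) : ℂ) * f v := by
  rw [Dr_apply]
  push_cast
  rw [sum_mul]
  refine sum_congr rfl fun j _ => ?_
  rw [h j, MultilinearMap.map_update_smul, Function.update_eq_self, smul_eq_mul]

end

theorem hk : S_hk := by
  intro n k T t
  rw [kil_iff]
  constructor
  · intro h
    -- the projections on the eigenspaces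
    set P : Fin 3 → Matrix (Fin n) (Fin n) ℂ := ![(1 / 2 : ℂ) • (T.x * T.x + T.x), 1 - T.x * T.x,
      (1 / 2 : ℂ) • (T.x * T.x - T.x)] with hP
    set e : Fin 3 → ℤ := ![1, 0, -1] with he
    have hPe : ∀ r (w : Fin n → ℂ), T.x *ᵥ (P r *ᵥ w) = (e r : ℂ) • (P r *ᵥ w) := by
      intro r w
      have hx : T.x * (T.x * T.x) = T.x := by rw [← mul_assoc, T.cube]
      have key : T.x * P r = (e r : ℂ) • P r := by
        fin_cases r
        · simp only [hP, he, Fin.zero_eta, Matrix.cons_val_zero, Int.cast_one, one_smul]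
          rw [mul_smul_comm, mul_add, hx, add_comm]
        · simp [hP, he, mul_sub, hx]
        · simp only [hP, he, Fin.reduceFinMk, Matrix.cons_val, Int.cast_neg, Int.cast_one,
            neg_smul, one_smul]
          rw [mul_smul_comm, mul_sub, hx, ← smul_neg, neg_sub]
      rw [Matrix.mulVec_mulVec, key, Matrix.smul_mulVec]
    have hsum : ∀ w : Fin n → ℂ, w = ∑ r, P r *ᵥ w := by
      intro w
      rw [← Matrix.sum_mulVec]
      have : ∑ r, P r = 1 := by
        rw [Fin.sum_univ_three]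
        simp only [hP, Matrix.cons_val_zero, Matrix.cons_val_one, Matrix.cons_val]
        module
      rw [this, Matrix.one_mulVec]
    refine MultilinearMap.ext fun v => ?_
    have h1 : v = fun j => ∑ r, P r *ᵥ v j := funext fun j => hsum (v j)
    rw [h1, MultilinearMap.map_sum, _root_.zero_apply]
    refine sum_eq_zero fun r _ => ?_
    have h2 : ∀ j, T.x *ᵥ ((fun j => P (r j) *ᵥ v j) j) =
        (((fun j => e (r j)) j : ℤ) : ℂ) • (fun j => P (r j) *ᵥ v j) j := fun j => hPe (r j) (v j)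
    rw [Dr_eigen T.x (EE t) (fun j => P (r j) *ᵥ v j) (fun j => e (r j)) h2]
    by_cases h3 : ∑ j, e (r j) = 0
    · rw [h3, Int.cast_zero, zero_mul]
    · rw [EE_apply, h _ _ h2 h3, mul_zero]
  · intro h v a hv ha
    have h1 := Dr_eigen T.x (EE t) v a hv
    rw [h, _root_.zero_apply, EE_apply] at h1
    rcases mul_eq_zero.1 h1.symm with h2 | h2
    · exact absurd (by exact_mod_cast h2) ha
    · exact h2

theorem lie : S_lie := by
  intro n k t x y hx hy
  rw [kil_iff] at hx hy ⊢
  have hx' : ∀ v, ∑ j, EE t (Function.update v j (x *ᵥ v j)) = 0 := by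
    intro v
    rw [← Dr_apply, hx]
    rfl
  have hy' : ∀ v, ∑ j, EE t (Function.update v j (y *ᵥ v j)) = 0 := by
    intro v
    rw [← Dr_apply, hy]
    rfl
  refine MultilinearMap.ext fun v => ?_
  rw [Dr_apply, _root_.zero_apply]
  set F : Fin k → Fin k → ℂ := fun j i =>
    EE t (Function.update (Function.update v j (y *ᵥ (v j))) i
      (x *ᵥ (Function.update v j (y *ᵥ (v j)) i))) with hF
  set G : Fin k → Fin k → ℂ := fun j i =>
    EE t (Function.update (Function.update v j (x *ᵥ (v j))) i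
      (y *ᵥ (Function.update v j (x *ᵥ (v j)) i))) with hG
  have h1 : ∑ j, ∑ i, F j i = 0 := sum_eq_zero fun j _ => hx' _
  have h2 : ∑ j, ∑ i, G j i = 0 := sum_eq_zero fun j _ => hy' _
  have h3 : ∀ i j, i ≠ j → F j i = G i j := by
    intro i j hij
    simp only [hF, hG]
    rw [Function.update_of_ne hij, Function.update_of_ne hij.symm, Function.update_comm hij]
  have h4 : ∑ j, (F j j - G j j) = 0 := by
    have h5 : ∑ j, ∑ i, (F j i - G i j) = ∑ j, (F j j - G j j) := by
      refine sum_congr rfl fun j _ => ?_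
      refine sum_eq_single j (fun i _ hij => ?_) (fun h => absurd (mem_univ j) h)
      rw [h3 i j hij, sub_self]
    rw [← h5]
    simp only [sum_sub_distrib]
    rw [h1, sum_comm, h2, sub_zero]
  rw [← h4]
  refine sum_congr rfl fun j _ => ?_
  simp only [hF, hG, Function.update_self, Function.update_idem]
  rw [← MultilinearMap.map_update_sub, Matrix.mulVec_mulVec, Matrix.mulVec_mulVec,
    Matrix.sub_mulVec]

end Pool.Agent.W101.PG
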