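import Pool.Agent.W544.PG.Defs5
import Pool.Agent.W377.PG.G0

/-!
# Project PG (helper544), part G0P: Hodge substructures are stable under `hT`
-/

open Matrix Finset Module

namespace Pool.Agent.W101.PG

open Pool.Agent.W544.PG Pool.Agent.W377.PG

noncomputable section

variable {n k : ℕ}

/-- (G0P): a Hodge substructure is stable under `T.hT` -/
theorem g0p (n k : ℕ) (T : HS n) (W : Submodule ℚ ((Fin k → Fin n) → ℚ)) (hW : T.IsSub W)
    (Z : Matrix (Fin n) (Fin n) ℂ) (hZT : Z ∈ T.hT) (w : (Fin k → Fin n) → ℂ)
    (hw : w ∈ cspan W) : act Z w ∈ cspan W := by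
  have hZ : Zᵀ * mC T.Q + mC T.Q * Z = 0 := hZT.1
  obtain ⟨π, hπ1, hπ2, hπ3⟩ := exists_proj T W hW
  have hr : ∀ s : V n k, pc π s ∈ cspan W := fun s =>
    Submodule.sum_mem _ fun J _ => Submodule.smul_mem _ _ (cx_mem W (hπ1 _))
  have hid : ∀ s ∈ cspan W, pc π s = s := by
    intro s hs
    unfold cspan at hs
    induction hs using Submodule.span_induction with
    | mem x h =>
      obtain ⟨t, ht, rfl⟩ := h
      rw [pc_cx, hπ2 t ht]
    | zero => exact map_zero _
    | add x y _ _ hx hy => rw [map_add, hx, hy]
    | smul a x _ hx => rw [map_smul, hx]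
  have horth : ∀ (s : V n k), ∀ w ∈ cspan W, bt T w (s - pc π s) = 0 := by
    intro s w hw
    have h1 : s - pc π s = ∑ J, s J • cx (Pi.single J 1 - π (Pi.single J 1)) := by
      have h2 : ∑ J, s J • cx (Pi.single J 1 : (Fin k → Fin n) → ℚ) = s := by
        funext K
        rw [Finset.sum_apply, sum_eq_single K]
        · simp [cx]
        · intro J _ hJ
          simp [cx, Ne.symm hJ]
        · intro h
          exact absurd (mem_univ K) h
      calc s - pc π s = ∑ J, s J • cx (Pi.single J 1 : (Fin k → Fin n) → ℚ) -
            ∑ J, s J • cx (π (Pi.single J 1)) := by rw [h2, pc_apply]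
        _ = _ := by
          rw [← sum_sub_distrib]
          refine sum_congr rfl fun J _ => ?_
          rw [← smul_sub]
          congr 1
          funext K
          simp [cx]
    rw [h1, bt_sum_right]
    refine sum_eq_zero fun J _ => ?_
    rw [bt_smul_right]
    have h3 : ∀ w ∈ cspan W, bt T w (cx (Pi.single J 1 - π (Pi.single J 1))) = 0 := by
      intro w hw
      unfold cspan at hw
      induction hw using Submodule.span_induction with
      | mem x h =>
        obtain ⟨t, ht, rfl⟩ := h
        exact hπ3 _ t ht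
      | zero => exact bt_zero_left T _
      | add x y _ _ hx hy => rw [bt_add_left, hx, hy, add_zero]
      | smul a x _ hx => rw [bt_smul_left, hx, mul_zero]
    rw [h3 w hw, mul_zero]
  have hx : T.xᵀ * mC T.Q + mC T.Q * T.x = 0 := T.skew
  have hcomm : ∀ s : V n k, actL T.x (pc π s) = pc π (actL T.x s) := by
    intro s
    have h1 : pc π (actL T.x (s - pc π s)) = 0 := by
      apply nondeg T W hW _ (hr _)
      intro w hw
      have h2 := horth (actL T.x (s - pc π s)) w hw
      have h3 : bt T w (actL T.x (s - pc π s)) = 0 := by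
        have h4 := bt_act T T.x hx w (s - pc π s)
        have h6 : bt T (actL T.x w) (s - pc π s) = 0 := horth s _ (hW w hw)
        rw [h6] at h4
        exact neg_eq_zero.1 h4.symm
      have h5 : bt T w (actL T.x (s - pc π s)) =
          bt T w (actL T.x (s - pc π s) - pc π (actL T.x (s - pc π s))) +
          bt T w (pc π (actL T.x (s - pc π s))) := by
        rw [← bt_add_right, sub_add_cancel]
      rw [h2, h3, zero_add] at h5
      exact h5.symm
    rw [map_sub, map_sub, sub_eq_zero] at h1
    rw [h1]
    exact (hid _ (hW _ (hr s))).symm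
  have hf : T.IsHodge (ff T π) := by
    rw [Pool.Agent.W101.PG.hk]
    intro L
    rw [ff_key T π T.x hx _ _ L (fun i => rfl) (fun i => rfl), hcomm, sub_self]
  have hk := hZT.2 _ _ hf
  have hZJ : ∀ J : Fin k → Fin n, actL Z (pc π (cx (sJ T J))) = pc π (actL Z (cx (sJ T J))) := by
    intro J
    funext K
    have h1 := hk (Fin.append J K)
    rw [ff_key T π Z hZ J K _ (fun i => Fin.append_left J K i) (fun i => Fin.append_right J K i)] at h1
    exact sub_eq_zero.1 h1
  have hall : ∀ s : V n k, actL Z (pc π s) = pc π (actL Z s) := by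
    intro s
    have h1 : s = ∑ J, mp (fun _ => Qi T) s J • cx (sJ T J) := by
      have h2 : mp (fun _ => mC T.Q) (mp (fun _ => Qi T) s) = s := by
        rw [mp_mp, Qi_mul, mp_one]
      conv_lhs => rw [← h2]
      funext K
      rw [mp_apply, Finset.sum_apply]
      refine sum_congr rfl fun J _ => ?_
      rw [Pi.smul_apply, smul_eq_mul, mul_comm]
      congr 1
      simp [cx, sJ, mC]
    rw [h1]
    simp only [map_sum, map_smul, hZJ]
  have h1 := hall w
  rw [hid w hw] at h1
  have h2 : act Z w = actL Z w := rfl
  rw [h2, h1]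
  exact hr _

end

end Pool.Agent.W101.PG
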