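import Pool.Agent.W544.PG.Defs

/-!
# Project PG (helper544), part SIMP: a star-closed algebra with trivial centre is simple
-/

open Matrix Finset Module
open scoped ComplexOrder

namespace Pool.Agent.W101.PG

open Pool.Agent.W544.PG

section
variable {ι : Type} [Fintype ι] [DecidableEq ι]

lemma exists_unit (K : Submodule ℂ (Matrix ι ι ℂ)) (hK : ∀ a ∈ K, aᴴ ∈ K) :
    ∃ u ∈ K, ∀ k ∈ K, (u * k).trace = k.trace := by
  let φ : K →ₗ[ℂ] Module.Dual ℂ K := LinearMap.mk₂ ℂ
    (fun a k : K => ((a : Matrix ι ι ℂ) * (k : Matrix ι ι ℂ)).trace)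
    (by intro a b k; simp [add_mul]) (by intro c a k; simp)
    (by intro a k l; simp [mul_add]) (by intro c a k; simp)
  have hφ : ∀ a k : K, φ a k = ((a : Matrix ι ι ℂ) * (k : Matrix ι ι ℂ)).trace := fun _ _ => rfl
  have hinj : Function.Injective φ := by
    rw [← LinearMap.ker_eq_bot, LinearMap.ker_eq_bot']
    intro a ha
    have h1 : φ a ⟨(a : Matrix ι ι ℂ)ᴴ, hK _ a.2⟩ = 0 := by rw [ha]; rfl
    rw [hφ] at h1
    exact Subtype.ext (Matrix.trace_mul_conjTranspose_self_eq_zero_iff.1 h1)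
  have hsurj : Function.Surjective φ :=
    (LinearMap.injective_iff_surjective_of_finrank_eq_finrank
      (Subspace.dual_finrank_eq (K := ℂ) (V := K)).symm).1 hinj
  obtain ⟨u, hu⟩ := hsurj ((Matrix.traceLinearMap ι ℂ ℂ).comp K.subtype)
  refine ⟨u, u.2, fun k hk => ?_⟩
  have h2 : φ u ⟨k, hk⟩ = k.trace := by rw [hu]; rfl
  rw [hφ] at h2
  exact h2

end

theorem simp' : S_simp := by
  intro ι _ _ S J hS hF hJS hJ hid
  obtain ⟨h1S, hmul, hst⟩ := hS
  let K : Submodule ℂ (Matrix ι ι ℂ) :=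
    { carrier := {y | y ∈ J ∧ yᴴ ∈ J}
      zero_mem' := by simp
      add_mem' := by
        intro a b ha hb
        exact ⟨J.add_mem ha.1 hb.1, by
          rw [conjTranspose_add]; exact J.add_mem ha.2 hb.2⟩
      smul_mem' := by
        intro c a ha
        exact ⟨J.smul_mem c ha.1, by
          rw [conjTranspose_smul]; exact J.smul_mem _ ha.2⟩ }
  have hKmem : ∀ y, y ∈ K ↔ y ∈ J ∧ yᴴ ∈ J := fun _ => Iff.rfl
  have hKst : ∀ a ∈ K, aᴴ ∈ K := by
    intro a ha
    exact ⟨ha.2, by rw [conjTranspose_conjTranspose]; exact ha.1⟩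
  have hKJ : ∀ a ∈ K, a ∈ J := fun a ha => ha.1
  have hKid : ∀ a ∈ S, ∀ y ∈ K, a * y ∈ K ∧ y * a ∈ K := by
    intro a ha y hy
    refine ⟨⟨(hid a ha y hy.1).1, ?_⟩, ⟨(hid a ha y hy.1).2, ?_⟩⟩
    · rw [conjTranspose_mul]
      exact (hid _ (hst a ha) _ hy.2).2
    · rw [conjTranspose_mul]
      exact (hid _ (hst a ha) _ hy.2).1
  obtain ⟨u, huK, hu⟩ := exists_unit K hKst
  have hL : ∀ k ∈ K, u * k = k := by
    intro k hk
    have hd : u * k - k ∈ K := K.sub_mem (hKid u (hJS huK.1) k hk).1 hk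
    have h0 : ((u * k - k) * (u * k - k)ᴴ).trace = 0 := by
      have h1 : k * (u * k - k)ᴴ ∈ K := (hKid _ (hJS hk.1) _ (hKst _ hd)).1
      rw [sub_mul, trace_sub, mul_assoc, hu _ h1, sub_self]
    have := Matrix.trace_mul_conjTranspose_self_eq_zero_iff.1 h0
    exact sub_eq_zero.1 this
  have hR : ∀ k ∈ K, k * u = k := by
    intro k hk
    have hd : k * u - k ∈ K := K.sub_mem (hKid u (hJS huK.1) k hk).2 hk
    have h0 : ((k * u - k) * (k * u - k)ᴴ).trace = 0 := by
      have h1 : (k * u - k)ᴴ * k ∈ K := (hKid _ (hJS hk.1) _ (hKst _ hd)).2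
      rw [sub_mul, trace_sub, mul_assoc, trace_mul_comm k, mul_assoc, hu _ h1,
        trace_mul_comm k, sub_self]
    have := Matrix.trace_mul_conjTranspose_self_eq_zero_iff.1 h0
    exact sub_eq_zero.1 this
  have huH : uᴴ = u := by
    have e1 : uᴴ * u = u := by
      have h1 := hR _ (hKst u huK)
      have h2 := congrArg conjTranspose (hR _ (hKst u huK))
      rw [conjTranspose_mul, conjTranspose_conjTranspose] at h2
      exact h2
    exact (hR _ (hKst u huK)).symm.trans e1
  have hproj : Proj u := ⟨hL u huK, huH⟩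
  have hcom : u ∈ com (S : Set (Matrix ι ι ℂ)) := by
    intro a ha
    have h1 := hR _ (hKid a ha u huK).2
    have h2 := hL _ (hKid a ha u huK).1
    rw [← h1, mul_assoc, h2]
  rcases hF u (hJS huK.1) hcom hproj with h0 | h1
  · exfalso
    obtain ⟨y, hy, hy0⟩ := (Submodule.ne_bot_iff J).1 hJ
    have hyK : y * yᴴ ∈ K := by
      have : y * yᴴ ∈ J := (hid _ (hst y (hJS hy)) y hy).2
      refine ⟨this, ?_⟩
      rw [conjTranspose_mul, conjTranspose_conjTranspose]
      exact this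
    have h2 := hL _ hyK
    rw [h0, zero_mul] at h2
    apply hy0
    apply Matrix.trace_mul_conjTranspose_self_eq_zero_iff.1
    rw [← h2, trace_zero]
  · refine le_antisymm hJS fun s hs => ?_
    have := (hid s hs u huK.1).1
    rw [h1, mul_one] at this
    exact this

theorem simp : S_exp → S_simp := fun _ => simp'

end Pool.Agent.W101.PG
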